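import Mathlib
import Pool.Agent.Helper44.Ball3.Rate

set_option autoImplicit false
set_option maxHeartbeats 4000000

open MeasureTheory Filter Topology Real

namespace Pool.Agent.Results.MP_9736d0_an.BallAsymptotics

/-- The product of the squared distances over all pairs of points. -/
noncomputable def Q (n s : ℕ) (r : Fin n → EuclideanSpace ℝ (Fin s)) : ℝ :=
  ∏ k : Fin n, ∏ j ∈ Finset.Ioi k, ‖r j - r k‖ ^ 2

/-- The integral of `Q` over `n` points of the closed unit ball of dimension `s`, with respect to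
Lebesgue measure. -/
noncomputable def F3 (n s : ℕ) : ℝ :=
  ∫ r in {r : Fin n → EuclideanSpace ℝ (Fin s) | ∀ i, ‖r i‖ ≤ 1}, Q n s r

/-- The explicit function of `n`. -/
noncomputable def explicit (n : ℕ) : ℝ :=
  exp (eulerMascheroniConstant / 4 - 2) * (n : ℝ) ^ ((1 : ℝ) / 4 - n) * 2 ^ (n * (n + 1)) * π ^ n *
    (n.factorial : ℝ) ^ (1 - (n : ℤ)) * ∏ k ∈ Finset.range n, (k.factorial : ℝ) ^ 2

theorem result :
    Tendsto (fun n : ℕ => F3 n 3 / explicit n) atTop (𝓝 1) ∧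
    ∃ C : ℝ, ∀ n : ℕ, 2 ≤ n →
      |F3 n 3 / explicit n - 1| ≤ C * (log n) ^ 2 / (n : ℝ) ^ ((1 : ℝ) / 4) := by
  refine ⟨Pool.Agent.Helper44.Ball3.ball_asymp, ?_⟩
  obtain ⟨C, _, hC⟩ := Asymptotics.bound_of_isBigO_nat_atTop Pool.Agent.Helper44.Ball3.ball_rate
  refine ⟨C, fun n hn => ?_⟩
  have hn2 : (2 : ℝ) ≤ n := by exact_mod_cast hn
  have hlog : 0 < log (n : ℝ) := log_pos (by linarith)
  have hg : 0 < Pool.Agent.Helper44.Ball3.gs n := by
    unfold Pool.Agent.Helper44.Ball3.gs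
    positivity
  have h := hC hg.ne'
  rw [norm_eq_abs, norm_of_nonneg hg.le] at h
  rw [mul_div_assoc]
  exact h

end Pool.Agent.Results.MP_9736d0_an.BallAsymptotics
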