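import Pool.Agent.F1.All

set_option autoImplicit false

open MeasureTheory Real

namespace Pool.Agent.Results.MP_9736d0_an.GaussianLogAsymptotics

/-- The product of the squared distances over all pairs of points. -/
noncomputable def Q (n s : ℕ) (r : Fin n → EuclideanSpace ℝ (Fin s)) : ℝ :=
  ∏ k : Fin n, ∏ j ∈ Finset.Ioi k, ‖r j - r k‖ ^ 2

/-- The integral of `Q` with Gaussian weight over all `n`-tuples of points of the space of
dimension `s`, with respect to Lebesgue measure. -/
noncomputable def F1 (n s : ℕ) : ℝ :=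
  ∫ r : Fin n → EuclideanSpace ℝ (Fin s), Q n s r * ∏ i, exp (-‖r i‖ ^ 2)

/-- There is a constant `C` such that, for all `n ≥ 1`, the integral `F1 n 3` is positive and its
logarithm is `n ^ 2 * log n / 2 - (log 6 / 2 - 1 / 4) * n ^ 2 + (4 / 3) * n * log n`, up to an error
of absolute value at most `C * n`. -/
theorem result : ∃ C : ℝ, ∀ n : ℕ, 1 ≤ n → 0 < F1 n 3 ∧
    |log (F1 n 3) - ((n : ℝ) ^ 2 * log n / 2 - (log 6 / 2 - 1 / 4) * n ^ 2 +
      4 / 3 * n * log n)| ≤ C * n :=
  Pool.Agent.F1.full

end Pool.Agent.Results.MP_9736d0_an.GaussianLogAsymptotics
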