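import Pool.Agent.MSF.Main

set_option autoImplicit false

open MeasureTheory Real Filter Polynomial

namespace Pool.Agent.Results.MP_9736d0_an.GaussianNoHolonomicForm

/-- The product of the squared distances over all pairs of points. -/
noncomputable def Q (n s : ℕ) (r : Fin n → EuclideanSpace ℝ (Fin s)) : ℝ :=
  ∏ k : Fin n, ∏ j ∈ Finset.Ioi k, ‖r j - r k‖ ^ 2

/-- The integral of `Q` with Gaussian weight over all `n`-tuples of points of the space of
dimension `s`, with respect to Lebesgue measure. -/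
noncomputable def F1 (n s : ℕ) : ℝ :=
  ∫ r : Fin n → EuclideanSpace ℝ (Fin s), Q n s r * ∏ i, exp (-‖r i‖ ^ 2)

/-- P-recursive (holonomic) sequences: `q_0(n) u(n) + ⋯ + q_J(n) u(n + J) = 0` for all large `n`,
with complex polynomials `q_j` which are not all zero. -/
def PRec (u : ℕ → ℂ) : Prop :=
  ∃ (J : ℕ) (q : ℕ → ℂ[X]), (∃ j ≤ J, q j ≠ 0) ∧
    ∀ᶠ n : ℕ in atTop, ∑ j ∈ Finset.range (J + 1), (q j).eval (n : ℂ) * u (n + j) = 0

/-- Sequences of Barnes type: for some `s ≥ 1` the power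
`(E(n + 2) E(n) / E(n + 1) ^ 2) ^ s` is a rational function of `n` for all large `n`. -/
def Barnes (E : ℕ → ℂ) : Prop :=
  ∃ (s : ℕ) (P S : ℂ[X]), 1 ≤ s ∧ P ≠ 0 ∧ S ≠ 0 ∧ ∀ᶠ n : ℕ in atTop, E n ≠ 0 ∧
    (E (n + 2) * E n) ^ s * S.eval (n : ℂ) = P.eval (n : ℂ) * E (n + 1) ^ (2 * s)

/-- No product of values `F1 (a * (n + i) + b) 3 ^ c i`, with integer exponents of nonzero sum, is
equal, for all large `n`, to a sequence of Barnes type times a quotient `u / v` of P-recursive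
sequences. -/
theorem result (a b r : ℕ) (c : ℕ → ℤ) (ha : 1 ≤ a)
    (hc : ∑ i ∈ Finset.range (r + 1), c i ≠ 0) (E u v : ℕ → ℂ) (hE : Barnes E) (hu : PRec u)
    (hv : PRec v) (hv0 : ∃ᶠ n : ℕ in atTop, v n ≠ 0) :
    ¬ ∀ᶠ n : ℕ in atTop,
      ((∏ i ∈ Finset.range (r + 1), F1 (a * (n + i) + b) 3 ^ c i : ℝ) : ℂ) * v n = E n * u n :=
  fun h => Pool.Agent.MSF.main a b r c ha hc E u v hE hu hv hv0 h

end Pool.Agent.Results.MP_9736d0_an.GaussianNoHolonomicForm
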