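import Mathlib
import Pool.Agent.Helper44.NCF.Main
import Pool.Agent.GNC.All

set_option autoImplicit false

open MeasureTheory Filter Polynomial

namespace Pool.Agent.Results.MP_9736d0_an.NoClosedForm

/-- The product of the squared distances over all pairs of points. -/
noncomputable def Q (n s : ℕ) (r : Fin n → EuclideanSpace ℝ (Fin s)) : ℝ :=
  ∏ k : Fin n, ∏ j ∈ Finset.Ioi k, ‖r j - r k‖ ^ 2

/-- The integral of `Q` with Gaussian weight over all `n`-tuples of points of the space of
dimension `s`, with respect to Lebesgue measure. -/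
noncomputable def F1 (n s : ℕ) : ℝ :=
  ∫ r : Fin n → EuclideanSpace ℝ (Fin s), Q n s r * ∏ i, Real.exp (-‖r i‖ ^ 2)

/-- The integral of `Q` over `n` points of the closed unit ball of dimension `s`, with respect to
Lebesgue measure. -/
noncomputable def F3 (n s : ℕ) : ℝ :=
  ∫ r in {r : Fin n → EuclideanSpace ℝ (Fin s) | ∀ i, ‖r i‖ ≤ 1}, Q n s r

/-- The class of product type closed forms with parameters in `K`: the smallest class of real
sequences that contains every real polynomial which is positive at all large integers and has all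
its complex roots in `K`, and that is closed under products, powers whose exponent is a polynomial
in `n` with real coefficients in `K`, indefinite products, substitutions `n ↦ a n + b`, and changes
of finitely many terms. -/
inductive ClosedForm (K : Set ℂ) : (ℕ → ℝ) → Prop
  | poly (p : ℝ[X]) (h : ∀ᶠ n : ℕ in atTop, 0 < p.eval (n : ℝ))
      (hK : ∀ z : ℂ, aeval z p = 0 → z ∈ K) : ClosedForm K fun n => p.eval (n : ℝ)
  | mul {f g : ℕ → ℝ} (hf : ClosedForm K f) (hg : ClosedForm K g) :
      ClosedForm K fun n => f n * g n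
  | pow {f : ℕ → ℝ} (q : ℝ[X]) (hK : ∀ i, ((q.coeff i : ℝ) : ℂ) ∈ K) (hf : ClosedForm K f) :
      ClosedForm K fun n => f n ^ (q.eval (n : ℝ))
  | prod {f : ℕ → ℝ} (h : ∀ k, 0 < f k) (hf : ClosedForm K f) :
      ClosedForm K fun n => ∏ k ∈ Finset.range n, f k
  | subst {f : ℕ → ℝ} (a b : ℕ) (h : 0 < a) (hf : ClosedForm K f) :
      ClosedForm K fun n => f (a * n + b)
  | congr {f g : ℕ → ℝ} (hf : ClosedForm K f) (h : ∀ᶠ n in atTop, g n = f n) : ClosedForm K g

private theorem cf_prod (s : Multiset ℚ) :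
    Pool.Agent.GNC.CF fun n : ℕ => (s.map fun r : ℚ => (n : ℝ) - r).prod := by
  induction s using Multiset.induction_on with
  | empty =>
    simp only [Multiset.map_zero, Multiset.prod_zero]
    exact Pool.Agent.GNC.CF.const 1 one_pos
  | cons r s ih =>
    have h := Pool.Agent.GNC.CF.mul (Pool.Agent.GNC.CF.shift (-r)) ih
    have e : (fun n : ℕ => ((r ::ₘ s).map fun r : ℚ => (n : ℝ) - r).prod) =
        fun n : ℕ => ((n : ℝ) + ((-r : ℚ) : ℝ)) * (s.map fun r : ℚ => (n : ℝ) - r).prod := by
      funext n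
      rw [Multiset.map_cons, Multiset.prod_cons]
      push_cast
      ring
    rw [e]
    exact h

private theorem cf_pos (s : Multiset ℚ) :
    ∀ᶠ n : ℕ in atTop, 0 < (s.map fun r : ℚ => (n : ℝ) - r).prod := by
  induction s using Multiset.induction_on with
  | empty => simp
  | cons r s ih =>
    have h1 : Tendsto (fun n : ℕ => (n : ℝ) - r) atTop atTop :=
      tendsto_atTop_add_const_right _ _ tendsto_natCast_atTop_atTop
    filter_upwards [ih, h1.eventually_gt_atTop 0] with n h2 h3
    rw [Multiset.map_cons, Multiset.prod_cons]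
    exact mul_pos h3 h2

private theorem exists_rat (m : Multiset ℂ) (hm : ∀ z ∈ m, ∃ r : ℚ, (r : ℂ) = z) :
    ∃ s : Multiset ℚ, s.map ((↑) : ℚ → ℂ) = m := by
  induction m using Multiset.induction_on with
  | empty => exact ⟨0, rfl⟩
  | cons z m ih =>
    obtain ⟨s, hs⟩ := ih fun w hw => hm w (Multiset.mem_cons_of_mem hw)
    obtain ⟨r, hr⟩ := hm z (Multiset.mem_cons_self z m)
    exact ⟨r ::ₘ s, by rw [Multiset.map_cons, hs, hr]⟩

private theorem cf_poly (p : ℝ[X]) (h : ∀ᶠ n : ℕ in atTop, 0 < p.eval (n : ℝ))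
    (hK : ∀ z : ℂ, aeval z p = 0 → z ∈ Set.range ((↑) : ℚ → ℂ)) :
    Pool.Agent.GNC.CF fun n : ℕ => p.eval (n : ℝ) := by
  have hp : p ≠ 0 := by
    rintro rfl
    obtain ⟨n, hn⟩ := h.exists
    simp at hn
  have hr : ∀ z ∈ (p.map (algebraMap ℝ ℂ)).roots, ∃ r : ℚ, (r : ℂ) = z := by
    intro z hz
    obtain ⟨r, hr⟩ := hK z (by
      have h1 := isRoot_of_mem_roots hz
      rw [IsRoot.def, eval_map_algebraMap] at h1
      exact h1)
    exact ⟨r, hr⟩
  obtain ⟨s, hs⟩ := exists_rat (p.map (algebraMap ℝ ℂ)).roots hr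
  have h1 : ∀ n : ℕ, p.eval (n : ℝ) =
      p.leadingCoeff * (s.map fun r : ℚ => (n : ℝ) - r).prod := by
    intro n
    have h2 := (IsAlgClosed.splits (p.map (algebraMap ℝ ℂ))).eq_prod_roots
    have h3 := congrArg (eval (n : ℂ)) h2
    rw [eval_natCast_map, eval_mul, eval_C, leadingCoeff_map, ← hs, Multiset.map_map,
      eval_multiset_prod, Multiset.map_map] at h3
    have h4 : ((s.map fun r : ℚ => (n : ℝ) - r).prod : ℂ) =
        (s.map (eval (n : ℂ) ∘ (fun a => X - C a) ∘ ((↑) : ℚ → ℂ))).prod := by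
      rw [← Complex.coe_algebraMap, map_multiset_prod, Multiset.map_map]
      congr 1
      refine Multiset.map_congr rfl fun r _ => ?_
      simp
    rw [← h4] at h3
    have h5 : ((p.eval (n : ℝ) : ℝ) : ℂ) =
        ((p.leadingCoeff * (s.map fun r : ℚ => (n : ℝ) - r).prod : ℝ) : ℂ) := by
      rw [Complex.ofReal_mul]
      exact h3
    exact_mod_cast h5
  have h2 : 0 < p.leadingCoeff := by
    obtain ⟨n, h3, h4⟩ := (h.and (cf_pos s)).exists
    rw [h1 n] at h3
    exact pos_of_mul_pos_left h3 h4.le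
  have h3 := Pool.Agent.GNC.CF.mul (Pool.Agent.GNC.CF.const p.leadingCoeff h2) (cf_prod s)
  exact Pool.Agent.GNC.CF.congr h3 (Eventually.of_forall h1)

private theorem cf_of {f : ℕ → ℝ} (hf : ClosedForm (Set.range ((↑) : ℚ → ℂ)) f) :
    Pool.Agent.GNC.CF f := by
  induction hf with
  | poly p h hK => exact cf_poly p h hK
  | mul _ _ h1 h2 => exact Pool.Agent.GNC.CF.mul h1 h2
  | pow q hK _ h1 =>
    have h2 : q ∈ lifts (algebraMap ℚ ℝ) := by
      rw [lifts_iff_coeff_lifts]
      intro i
      obtain ⟨r, hr⟩ := hK i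
      refine ⟨r, ?_⟩
      have h3 : ((r : ℝ) : ℂ) = ((q.coeff i : ℝ) : ℂ) := by
        rw [← hr]
        push_cast
        rfl
      exact_mod_cast h3
    obtain ⟨P, rfl⟩ := (mem_lifts _).1 h2
    have h4 := Pool.Agent.GNC.CF.pow P h1
    refine Pool.Agent.GNC.CF.congr h4 (Eventually.of_forall fun n => ?_)
    rw [eval_natCast_map]
    rfl
  | prod h _ h1 => exact Pool.Agent.GNC.CF.prod h h1
  | subst a b h _ h1 => exact Pool.Agent.GNC.CF.subst a b h h1
  | congr _ h h1 => exact Pool.Agent.GNC.CF.congr h1 h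

private theorem inv_of {K : Set ℂ} {f : ℕ → ℝ} (hf : ClosedForm K f) :
    Pool.Agent.Helper44.NCF.Inv f := by
  induction hf with
  | poly p h _ => exact Pool.Agent.Helper44.NCF.Inv.poly h
  | mul _ _ h1 h2 => exact h1.mul h2
  | pow q _ _ h => exact h.pow q
  | prod h _ h1 => exact h1.prod h
  | subst a b h _ h1 => exact h1.subst h b
  | congr _ h h1 => exact h1.congr h

/-- Neither `F1 n 3` nor `F3 n 3` has a closed form of product type: `F1 n 3` is different from
`f n` for infinitely many `n`, for every closed form `f` with rational parameters, and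
`F3 (a m + b) 3` is different from `f m` for all large `m`, for every closed form `f` with
arbitrary parameters and every progression `a m + b`. -/
theorem result :
    (∀ f : ℕ → ℝ, ClosedForm (Set.range ((↑) : ℚ → ℂ)) f → ∃ᶠ n : ℕ in atTop, F1 n 3 ≠ f n) ∧
    (∀ f : ℕ → ℝ, ClosedForm Set.univ f → ∀ a b : ℕ, 0 < a →
      ∀ᶠ m : ℕ in atTop, F3 (a * m + b) 3 ≠ f m) :=
  ⟨fun f hf => Pool.Agent.GNC.all_Main f (cf_of hf),
    fun _ hf _ b ha => Pool.Agent.Helper44.NCF.no_closed_form (inv_of hf) ha b⟩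

end Pool.Agent.Results.MP_9736d0_an.NoClosedForm
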